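import Pool.Agent.Helper20.Mono.GoalsS

/-! # Packet S7 (CycloEq) -/

namespace Mono

open Finset

namespace H71

theorem prod_zpow_sum {ι K : Type*} [CommGroupWithZero K] (x : K) (hx : x ≠ 0) (s : Finset ι)
    (e : ι → ℤ) : ∏ i ∈ s, x ^ e i = x ^ ∑ i ∈ s, e i := by
  classical
  induction s using Finset.induction_on with
  | empty => simp
  | insert a s ha ih => rw [prod_insert ha, sum_insert ha, ih, zpow_add₀ hx]

theorem prod_group {ι K : Type*} [CommGroupWithZero K] (F : ℕ → K) (s : Finset ι) (N : ι → ℕ)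
    (e : ι → ℤ) (U : Finset ℕ) (hU : ∀ i ∈ s, N i ∈ U) (hF : ∀ n ∈ U, F n ≠ 0) :
    ∏ i ∈ s, F (N i) ^ e i = ∏ n ∈ U, F n ^ ∑ i ∈ s.filter (fun i => N i = n), e i := by
  rw [← Finset.prod_fiberwise_of_maps_to hU (fun i => F (N i) ^ e i)]
  refine prod_congr rfl fun n hn => ?_
  rw [← prod_zpow_sum (F n) (hF n hn)]
  refine prod_congr rfl fun i hi => ?_
  rw [(mem_filter.1 hi).2]

theorem sum_group {ι : Type*} (s : Finset ι) (N : ι → ℕ) (e : ι → ℤ) (U : Finset ℕ)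
    (hU : ∀ i ∈ s, N i ∈ U) (m : ℕ) :
    ∑ i ∈ s.filter (fun i => m ∣ N i), e i =
      ∑ n ∈ U.filter (fun n => m ∣ n), ∑ i ∈ s.filter (fun i => N i = n), e i := by
  have h : ∀ i ∈ s.filter (fun i => m ∣ N i), N i ∈ U.filter (fun n => m ∣ n) := fun i hi =>
    mem_filter.2 ⟨hU i (mem_filter.1 hi).1, (mem_filter.1 hi).2⟩
  rw [← Finset.sum_fiberwise_of_maps_to h e]
  refine sum_congr rfl fun n hn => ?_
  refine sum_congr ?_ fun _ _ => rfl
  ext i
  simp only [mem_filter]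
  constructor
  · rintro ⟨⟨h1, _⟩, h3⟩
    exact ⟨h1, h3⟩
  · rintro ⟨h1, h3⟩
    exact ⟨⟨h1, h3 ▸ (mem_filter.1 hn).2⟩, h3⟩

theorem one_sub_X_pow_ne_zero {n : ℕ} (hn : n ≠ 0) : (1 - RatFunc.X ^ n : RatFunc ℂ) ≠ 0 := by
  intro h
  have h1 : (RatFunc.X ^ n : RatFunc ℂ) = 1 := (sub_eq_zero.1 h).symm
  have h2 : algebraMap (Polynomial ℂ) (RatFunc ℂ) (Polynomial.X ^ n) =
      algebraMap (Polynomial ℂ) (RatFunc ℂ) 1 := by
    rw [map_pow, RatFunc.algebraMap_X, map_one]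
    exact h1
  have h3 := RatFunc.algebraMap_injective ℂ h2
  have h4 := congrArg Polynomial.natDegree h3
  simp at h4
  exact hn h4

end H71

open H71 in
theorem cycloEq : CycloEq := by
  intro ι κ s t N M e g hN hM h
  set B : ℕ := max (s.sup N) (t.sup M) with hB
  set U : Finset ℕ := Finset.Icc 1 B with hUdef
  have hUs : ∀ i ∈ s, N i ∈ U := fun i hi => by
    rw [hUdef, mem_Icc]
    exact ⟨Nat.one_le_iff_ne_zero.2 (hN i hi), (le_sup (f := N) hi).trans (le_max_left _ _)⟩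
  have hUt : ∀ j ∈ t, M j ∈ U := fun j hj => by
    rw [hUdef, mem_Icc]
    exact ⟨Nat.one_le_iff_ne_zero.2 (hM j hj), (le_sup (f := M) hj).trans (le_max_right _ _)⟩
  have hF : ∀ n ∈ U, (1 - RatFunc.X ^ n : RatFunc ℂ) ≠ 0 := fun n hn =>
    one_sub_X_pow_ne_zero (by rw [hUdef, mem_Icc] at hn; omega)
  rw [prod_group (fun n => (1 - RatFunc.X ^ n : RatFunc ℂ)) s N e U hUs hF,
    prod_group (fun n => (1 - RatFunc.X ^ n : RatFunc ℂ)) t M g U hUt hF]
  have h' : ∀ m : ℕ, ∑ n ∈ U.filter (fun n => m ∣ n),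
      ((∑ i ∈ s.filter (fun i => N i = n), e i) - ∑ j ∈ t.filter (fun j => M j = n), g j) = 0 := by
    intro m
    rw [sum_sub_distrib, ← sum_group s N e U hUs m, ← sum_group t M g U hUt m, h m, sub_self]
  have key : ∀ k m : ℕ, m ∈ U → B < m + k →
      (∑ i ∈ s.filter (fun i => N i = m), e i) - ∑ j ∈ t.filter (fun j => M j = m), g j = 0 := by
    intro k
    induction k with
    | zero =>
      intro m hm hk
      rw [hUdef, mem_Icc] at hm
      omega
    | succ k ih =>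
      intro m hm hk
      rw [← h' m]
      symm
      apply sum_eq_single m
      · intro n hn hnm
        obtain ⟨hn1, hn2⟩ := mem_filter.1 hn
        apply ih n hn1
        have h1 : m ≤ n := Nat.le_of_dvd (by rw [hUdef, mem_Icc] at hn1; omega) hn2
        omega
      · intro hm'
        exact absurd (mem_filter.2 ⟨hm, dvd_rfl⟩) hm'
  refine prod_congr rfl fun n hn => ?_
  rw [sub_eq_zero.1 (key (B + 1) n hn (by omega))]

end Mono
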