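import Pool.Agent.Helper20.Mono.GoalsH

/-!
# Packet EX3: integral generators of rational polyhedral cones in the positive orthant
(double description method).
-/

namespace Mono

open Finset

/-- The cone generated by a finite set of integer vectors, as an `ℝ≥0`-submodule. -/
def coneSpan {n : ℕ} (R : Finset (Fin n → ℤ)) : Submodule NNReal (Fin n → ℝ) :=
  Submodule.span NNReal (toR '' (R : Set (Fin n → ℤ)))

theorem coneSpan_gen {n : ℕ} {R : Finset (Fin n → ℤ)} {r : Fin n → ℤ} (h : r ∈ R) :
    toR r ∈ coneSpan R := Submodule.subset_span ⟨r, h, rfl⟩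

theorem coneSpan_smul {n : ℕ} {R : Finset (Fin n → ℤ)} {u : Fin n → ℝ} {t : ℝ} (ht : 0 ≤ t)
    (h : u ∈ coneSpan R) : t • u ∈ coneSpan R := by
  have := Submodule.smul_mem (coneSpan R) (⟨t, ht⟩ : NNReal) h
  rw [NNReal.smul_def] at this
  exact this

theorem mem_coneSpan {n : ℕ} {R : Finset (Fin n → ℤ)} {x : Fin n → ℝ} (h : x ∈ coneSpan R) :
    ∃ y : (Fin n → ℤ) → ℝ, (∀ r, 0 ≤ y r) ∧ x = ∑ r ∈ R, y r • toR r := by
  classical
  rw [coneSpan, Submodule.mem_span_image_finset_iff_exists_fun] at h
  obtain ⟨c, hc⟩ := h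
  refine ⟨fun r => if hr : r ∈ R then ((c ⟨r, hr⟩ : NNReal) : ℝ) else 0, fun r => ?_, ?_⟩
  · dsimp only
    split_ifs with hr
    · exact (c ⟨r, hr⟩).2
    · exact le_rfl
  · rw [← hc, ← Finset.sum_coe_sort R]
    refine Finset.sum_congr rfl fun r _ => ?_
    simp only [dif_pos r.2, NNReal.smul_def]

theorem toR_dot_h71 {n : ℕ} (c r : Fin n → ℤ) : toR c ⬝ᵥ toR r = ((c ⬝ᵥ r : ℤ) : ℝ) := by
  simp [toR, dotProduct]

theorem toR_add' {n : ℕ} (c r : Fin n → ℤ) : toR (c + r) = toR c + toR r := by
  funext i; simp [toR]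

theorem toR_zsmul' {n : ℕ} (k : ℤ) (r : Fin n → ℤ) : toR (k • r) = (k : ℝ) • toR r := by
  funext i; simp [toR]

theorem coneGen : ConeGen := by
  classical
  intro n C
  suffices H : ∃ R : Finset (Fin n → ℤ), (∀ r ∈ R, (∀ i, 0 ≤ r i) ∧ ∀ c ∈ C, 0 ≤ c ⬝ᵥ r) ∧
      ∀ x : Fin n → ℝ, (∀ i, 0 ≤ x i) → (∀ c ∈ C, 0 ≤ toR c ⬝ᵥ x) → x ∈ coneSpan R by
    obtain ⟨R, h1, h2⟩ := H
    exact ⟨R, h1, fun x hx hc => mem_coneSpan (h2 x hx hc)⟩
  induction C using Finset.induction_on with
  | empty =>
    refine ⟨Finset.univ.image fun i => Pi.single i (1 : ℤ), ?_, ?_⟩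
    · intro r hr
      obtain ⟨i, -, rfl⟩ := Finset.mem_image.1 hr
      refine ⟨fun j => ?_, by simp⟩
      by_cases h : j = i
      · subst h; simp
      · simp [Pi.single_eq_of_ne h]
    · intro x hx _
      have hx' : x = ∑ i, x i • toR (Pi.single i (1 : ℤ)) := by
        funext j
        simp only [toR, Finset.sum_apply, Pi.smul_apply, smul_eq_mul]
        rw [Finset.sum_eq_single j]
        · simp
        · intro i _ hij
          simp [Pi.single_eq_of_ne (Ne.symm hij)]
        · simp
      rw [hx']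
      exact Submodule.sum_mem _ fun i _ =>
        coneSpan_smul (hx i) (coneSpan_gen (Finset.mem_image.2 ⟨i, Finset.mem_univ i, rfl⟩))
  | insert c C hcC ih =>
    obtain ⟨R, hR1, hR2⟩ := ih
    set P := R.filter fun r => 0 < c ⬝ᵥ r with hP
    set O := R.filter fun r => c ⬝ᵥ r = 0 with hO
    set N := R.filter fun r => c ⬝ᵥ r < 0 with hN
    set Q := (P ×ˢ N).image fun pq => (c ⬝ᵥ pq.1) • pq.2 + (-(c ⬝ᵥ pq.2)) • pq.1 with hQ
    refine ⟨P ∪ O ∪ Q, ?_, ?_⟩
    · intro r hr
      rw [Finset.mem_union, Finset.mem_union] at hr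
      rcases hr with (hr | hr) | hr
      · rw [hP, Finset.mem_filter] at hr
        refine ⟨(hR1 r hr.1).1, fun c' hc' => ?_⟩
        rcases Finset.mem_insert.1 hc' with rfl | hc'
        · exact hr.2.le
        · exact (hR1 r hr.1).2 c' hc'
      · rw [hO, Finset.mem_filter] at hr
        refine ⟨(hR1 r hr.1).1, fun c' hc' => ?_⟩
        rcases Finset.mem_insert.1 hc' with rfl | hc'
        · exact hr.2.ge
        · exact (hR1 r hr.1).2 c' hc'
      · rw [hQ, Finset.mem_image] at hr
        obtain ⟨⟨p, q⟩, hpq, rfl⟩ := hr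
        rw [Finset.mem_product] at hpq
        obtain ⟨hp, hq⟩ := hpq
        rw [hP, Finset.mem_filter] at hp
        rw [hN, Finset.mem_filter] at hq
        simp only at hp hq ⊢
        refine ⟨fun i => ?_, fun c' hc' => ?_⟩
        · have h1 := (hR1 p hp.1).1 i
          have h2 := (hR1 q hq.1).1 i
          simp only [Pi.add_apply, Pi.smul_apply, smul_eq_mul]
          have h3 := mul_nonneg hp.2.le h2
          have h4 := mul_nonneg (neg_nonneg.2 hq.2.le) h1
          linarith
        · rw [dotProduct_add, dotProduct_smul, dotProduct_smul, smul_eq_mul, smul_eq_mul]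
          rcases Finset.mem_insert.1 hc' with rfl | hc'
          · have : c' ⬝ᵥ p * c' ⬝ᵥ q + -(c' ⬝ᵥ q) * c' ⬝ᵥ p = 0 := by ring
            exact this.ge
          · have h3 := mul_nonneg hp.2.le ((hR1 q hq.1).2 c' hc')
            have h4 := mul_nonneg (neg_nonneg.2 hq.2.le) ((hR1 p hp.1).2 c' hc')
            linarith
    · intro x hx hc
      have hxR : x ∈ coneSpan R := hR2 x hx fun c' hc' => hc c' (Finset.mem_insert_of_mem hc')
      obtain ⟨y, hy, hxy⟩ := mem_coneSpan hxR
      have hcx : 0 ≤ toR c ⬝ᵥ x := hc c (Finset.mem_insert_self _ _)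
      set w : (Fin n → ℤ) → ℝ := fun r => ((c ⬝ᵥ r : ℤ) : ℝ) with hw
      have hsplit : ∀ {M : Type} [AddCommMonoid M] (f : (Fin n → ℤ) → M),
          ∑ r ∈ R, f r = ∑ r ∈ P, f r + ∑ r ∈ O, f r + ∑ r ∈ N, f r := by
        intro M _ f
        have e1 : ∑ r ∈ R, f r = ∑ r ∈ P, f r + ∑ r ∈ R.filter (fun r => ¬ 0 < c ⬝ᵥ r), f r :=
          (Finset.sum_filter_add_sum_filter_not R (fun r => 0 < c ⬝ᵥ r) f).symm
        have e2 := (Finset.sum_filter_add_sum_filter_not
          (R.filter (fun r => ¬ 0 < c ⬝ᵥ r)) (fun r => c ⬝ᵥ r = 0) f).symm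
        rw [e1, e2, add_assoc]
        congr 2
        · rw [hO, Finset.filter_filter]
          refine Finset.sum_congr (Finset.filter_congr fun r _ => ?_) fun _ _ => rfl
          constructor
          · rintro ⟨-, h⟩; exact h
          · intro h; exact ⟨by omega, h⟩
        · rw [hN, Finset.filter_filter]
          refine Finset.sum_congr (Finset.filter_congr fun r _ => ?_) fun _ _ => rfl
          constructor
          · rintro ⟨h, h'⟩; omega
          · intro h; exact ⟨by omega, by omega⟩
      set a := ∑ p ∈ P, y p * w p with ha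
      set b := ∑ q ∈ N, y q * (-w q) with hb
      have hab : toR c ⬝ᵥ x = a - b := by
        have h1 : toR c ⬝ᵥ x = ∑ r ∈ R, y r * w r := by
          rw [hxy, dotProduct_sum]
          refine Finset.sum_congr rfl fun r _ => ?_
          rw [dotProduct_smul, toR_dot_h71, smul_eq_mul]
        rw [h1, hsplit]
        have h2 : ∑ r ∈ O, y r * w r = 0 := by
          refine Finset.sum_eq_zero fun r hr => ?_
          rw [hO, Finset.mem_filter] at hr
          simp [hw, hr.2]
        rw [h2, hb, ha]
        simp only [mul_neg, Finset.sum_neg_distrib]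
        ring
      have hPpos : ∀ p ∈ P, 0 < w p := fun p hp => by
        rw [hP, Finset.mem_filter] at hp
        show (0 : ℝ) < ((c ⬝ᵥ p : ℤ) : ℝ)
        exact_mod_cast hp.2
      have hNneg : ∀ q ∈ N, w q < 0 := fun q hq => by
        rw [hN, Finset.mem_filter] at hq
        show ((c ⬝ᵥ q : ℤ) : ℝ) < 0
        exact_mod_cast hq.2
      have hb0 : 0 ≤ b := Finset.sum_nonneg fun q hq =>
        mul_nonneg (hy q) (by have := hNneg q hq; linarith)
      have hba : b ≤ a := by linarith
      have hOmem : ∀ r ∈ O, toR r ∈ coneSpan (P ∪ O ∪ Q) := fun r hr =>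
        coneSpan_gen (Finset.mem_union_left _ (Finset.mem_union_right _ hr))
      have hPmem : ∀ r ∈ P, toR r ∈ coneSpan (P ∪ O ∪ Q) := fun r hr =>
        coneSpan_gen (Finset.mem_union_left _ (Finset.mem_union_left _ hr))
      rcases eq_or_lt_of_le (hb0.trans hba) with ha0 | ha0
      · -- a = 0, hence b = 0
        have hb00 : b = 0 := le_antisymm (by rw [← ha0] at hba; exact hba) hb0
        have hyN : ∀ q ∈ N, y q = 0 := by
          intro q hq
          have h1 := (Finset.sum_eq_zero_iff_of_nonneg (fun q hq =>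
            mul_nonneg (hy q) (by have := hNneg q hq; linarith : 0 ≤ -w q))).1 hb00 q hq
          rcases mul_eq_zero.1 h1 with h | h
          · exact h
          · have := hNneg q hq; linarith
        rw [hxy, hsplit]
        refine Submodule.add_mem _ (Submodule.add_mem _ ?_ ?_) ?_
        · exact Submodule.sum_mem _ fun r hr => coneSpan_smul (hy r) (hPmem r hr)
        · exact Submodule.sum_mem _ fun r hr => coneSpan_smul (hy r) (hOmem r hr)
        · rw [Finset.sum_eq_zero fun q hq => by rw [hyN q hq, zero_smul]]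
          exact Submodule.zero_mem _
      · have key : x = ∑ p ∈ P, ((1 - b / a) * y p) • toR p + ∑ r ∈ O, y r • toR r +
            ∑ p ∈ P, ∑ q ∈ N, (y p * y q / a) • toR ((c ⬝ᵥ p) • q + (-(c ⬝ᵥ q)) • p) := by
          have e1 : ∑ p ∈ P, ∑ q ∈ N, (y p * y q / a) • toR ((c ⬝ᵥ p) • q + (-(c ⬝ᵥ q)) • p) =
              ∑ q ∈ N, y q • toR q + ∑ p ∈ P, (b / a * y p) • toR p := by
            have e2 : ∀ p q, (y p * y q / a) • toR ((c ⬝ᵥ p) • q + (-(c ⬝ᵥ q)) • p) =
                (y p * w p / a) • (y q • toR q) + (y q * (-w q) / a) • (y p • toR p) := by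
              intro p q
              rw [toR_add', toR_zsmul', toR_zsmul', smul_add, smul_smul, smul_smul, smul_smul,
                smul_smul]
              congr 2
              · simp only [hw]; ring
              · simp only [hw]; push_cast; ring
            simp only [e2, Finset.sum_add_distrib]
            congr 1
            · rw [Finset.sum_comm]
              refine Finset.sum_congr rfl fun q _ => ?_
              rw [← Finset.sum_smul, ← Finset.sum_div, ← ha, div_self ha0.ne', one_smul]
            · refine Finset.sum_congr rfl fun p _ => ?_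
              rw [← Finset.sum_smul, ← Finset.sum_div, ← hb, smul_smul]
          rw [e1, hxy, hsplit]
          have e3 : ∑ p ∈ P, y p • toR p = ∑ p ∈ P, ((1 - b / a) * y p) • toR p +
              ∑ p ∈ P, (b / a * y p) • toR p := by
            rw [← Finset.sum_add_distrib]
            refine Finset.sum_congr rfl fun p _ => ?_
            rw [← add_smul]
            congr 1
            ring
          rw [e3]
          abel
        rw [key]
        have h1ba : 0 ≤ 1 - b / a := by
          rw [sub_nonneg, div_le_one ha0]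
          exact hba
        refine Submodule.add_mem _ (Submodule.add_mem _ ?_ ?_) ?_
        · exact Submodule.sum_mem _ fun r hr =>
            coneSpan_smul (mul_nonneg h1ba (hy r)) (hPmem r hr)
        · exact Submodule.sum_mem _ fun r hr => coneSpan_smul (hy r) (hOmem r hr)
        · refine Submodule.sum_mem _ fun p hp => Submodule.sum_mem _ fun q hq => ?_
          refine coneSpan_smul (div_nonneg (mul_nonneg (hy p) (hy q)) ha0.le) (coneSpan_gen ?_)
          exact Finset.mem_union_right _ (Finset.mem_image.2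
            ⟨(p, q), Finset.mem_product.2 ⟨hp, hq⟩, rfl⟩)

end Mono
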